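import Mathlib
import Pool.Graph.R_seed8.Results.MP_1441be_gt.NonEmbedding

/-!
# Separately continuous functions on products of uncountable spaces

The argument of the library file for `[0,1]^n` extended to arbitrary finite products: only the number
of uncountable factors matters.
-/

set_option autoImplicit false
set_option linter.unusedSectionVars false

open Set Topology Filter TopologicalSpace

namespace Pool.Agent.KS6_9.SC.Core

open Pool.Agent.R819.BaireHier Pool.Agent.R819.SepInterp
open Pool.Agent.Results.MP_1441be_gt.NonEmbedding (nhd_basic factor)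

open Classical in
/-- separately continuous real functions on the product of the spaces `X i` -/
def SepCont {ι : Type*} {X : ι → Type*} [∀ i, TopologicalSpace (X i)]
    (f : (∀ i, X i) → ℝ) : Prop :=
  ∀ (x : ∀ i, X i) (i : ι), Continuous fun t : X i => f (Function.update x i t)

/-- the space `SC_p(∏ X_i)` of the separately continuous real functions on the product, with the
topology of pointwise convergence -/
abbrev SCp {ι : Type*} (X : ι → Type*) [∀ i, TopologicalSpace (X i)] : Type _ :=
  {f : (∀ i, X i) → ℝ // SepCont f}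

/-- the Hilbert cube -/
abbrev HC : Type := ℕ → unitInterval

section source

variable {ι : Type} [Finite ι] {X : ι → Type} [∀ i, TopologicalSpace (X i)]
  (e : ∀ i, X i → HC) (he : ∀ i, Continuous (e i)) (hi : ∀ i, Function.Injective (e i))

/-- the map to the product of Hilbert cubes -/
def em (z : ∀ i, X i) : ι → HC := fun i => e i (z i)

include he in
theorem continuous_em : Continuous (em e) :=
  continuous_pi fun i => (he i).comp (continuous_apply i)

include hi in
theorem em_injective : Function.Injective (em e) := fun _ _ h =>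
  funext fun i => hi i (congrFun h i)

/-- continuous functions on the cube as separately continuous functions on the product -/
def inc (c : C(ι → HC, ℝ)) : SCp X := ⟨fun z => c (em e z), by
  classical
  intro x i
  have h1 : Continuous fun t : X i => em e (Function.update x i t) :=
    (continuous_em e he).comp (continuous_const.update i continuous_id)
  exact c.continuous.comp h1⟩

include hi in
theorem interp (F : Finset (∀ i, X i)) (r : (∀ i, X i) → ℝ) :
    ∃ c : C(ι → HC, ℝ), ∀ z ∈ F, c (em e z) = r z := by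
  classical
  have hF : IsClosed ((em e '' (F : Set (∀ i, X i))) : Set (ι → HC)) :=
    (F.finite_toSet.image _).isClosed
  have hdis : Finite (em e '' (F : Set (∀ i, X i))) := (F.finite_toSet.image _).to_subtype
  by_cases hne : Nonempty (∀ i, X i)
  · let g : (em e '' (F : Set (∀ i, X i))) → ℝ := fun w => r (Function.invFun (em e) w.1)
    have hg : Continuous g := by
      have : DiscreteTopology (em e '' (F : Set (∀ i, X i))) := Finite.instDiscreteTopology
      exact continuous_of_discreteTopology
    obtain ⟨c, hc⟩ := ContinuousMap.exists_restrict_eq hF (⟨g, hg⟩ : C(_, ℝ))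
    refine ⟨c, fun z hz => ?_⟩
    have h1 := DFunLike.congr_fun hc ⟨em e z, z, hz, rfl⟩
    have h2 : g ⟨em e z, z, hz, rfl⟩ = r z := by
      change r (Function.invFun (em e) (em e z)) = r z
      rw [Function.leftInverse_invFun (em_injective e hi) z]
    exact h1.trans h2
  · exact ⟨0, fun z _ => absurd ⟨z⟩ hne⟩

include he hi in
theorem exists_dense : ∃ q : ℕ → SCp X, DenseRange q := by
  have : Fintype ι := Fintype.ofFinite ι
  have h1 : Continuous (inc e he) :=
    Continuous.subtype_mk (continuous_pi fun z => continuous_eval_const (em e z)) _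
  have h2 : DenseRange (inc e he) := by
    intro f
    rw [mem_closure_iff]
    intro O hO hf
    obtain ⟨F, δ, hδ, hF⟩ := nhd_basic hO hf
    obtain ⟨c, hc⟩ := interp e hi F f.1
    refine ⟨inc e he c, hF _ fun z hz => ?_, c, rfl⟩
    have : (inc e he c).1 z = f.1 z := hc z hz
    rw [this, sub_self, abs_zero]
    exact hδ
  exact ⟨_, h2.comp (denseRange_denseSeq _) h1⟩

/-- a continuous function on `X i` which vanishes exactly at `x` -/
theorem exists_zero {Z : Type} [TopologicalSpace Z] (e : Z → HC) (he : Continuous e)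
    (hi : Function.Injective e) (x : Z) : ∃ h : Z → ℝ, Continuous h ∧ ∀ z, h z = 0 ↔ z = x := by
  let _ := metrizableSpaceMetric HC
  exact ⟨fun z => dist (e z) (e x), he.dist continuous_const, fun z =>
    dist_eq_zero.trans hi.eq_iff⟩

end source

section target

variable {κ : Type} {Y : κ → Type} [∀ j, TopologicalSpace (Y j)]

open Classical in
/-- the evaluations are iterated limits -/
theorem L_eval {W : Type} [TopologicalSpace W] {D : ∀ j, Set (Y j)}
    (S : Finset κ) (hD : ∀ j ∈ S, ∀ y : Y j, ∃ q : ℕ → Y j, (∀ k, q k ∈ D j) ∧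
      Tendsto q atTop (𝓝 y))
    (Φ : W → SCp Y) (hΦ : ∀ y : ∀ j, Y j, (∀ j, y j ∈ D j) → Continuous fun x => (Φ x).1 y) :
    ∀ y : ∀ j, Y j, (∀ j, j ∉ S → y j ∈ D j) → L S.card fun x => (Φ x).1 y := by
  induction S using Finset.induction_on with
  | empty =>
    intro y hy
    rw [Finset.card_empty]
    exact hΦ y fun j => hy j (Finset.notMem_empty j)
  | insert a S ha ih =>
    intro y hy
    rw [Finset.card_insert_of_notMem ha]
    obtain ⟨q, hqD, hq⟩ := hD a (Finset.mem_insert_self a S) (y a)
    refine ⟨fun k x => (Φ x).1 (Function.update y a (q k)),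
      fun k => ih (fun j hj => hD j (Finset.mem_insert_of_mem hj)) _ fun i hi => ?_, fun x => ?_⟩
    · by_cases hia : i = a
      · subst hia
        rw [Function.update_self]
        exact hqD k
      · rw [Function.update_of_ne hia]
        exact hy i fun h => (Finset.mem_insert.1 h).elim hia hi
    · have h1 := ((Φ x).2 y a).tendsto (y a)
      rw [Function.update_eq_self] at h1
      exact h1.comp hq

end target

/-- the family of functions on `ι → ℝ` -/
theorem exists_theta' {W : Type} [TopologicalSpace W] {ι : Type} [Fintype ι]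
    (h : W → unitInterval) (hh : L (Fintype.card ι) h) :
    ∃ θ : W → (ι → ℝ) → ℝ, (∀ x, SepCont (X := fun _ : ι => ℝ) (θ x)) ∧ (∀ x, θ x 0 = h x) ∧
      (∀ t : ι → ℝ, (∀ i, t i ≠ 0) → Continuous fun x => θ x t) := by
  classical
  obtain ⟨θ, hs, h0, hc, -⟩ := exists_theta _ h hh
  let ε := Fintype.equivFin ι
  refine ⟨fun x t => θ x (t ∘ ε.symm), ?_, ?_, ?_⟩
  · intro x t i
    have h1 : ∀ s : ℝ, Function.update t i s ∘ ε.symm = Function.update (t ∘ ε.symm) (ε i) s := by
      intro s
      rw [Function.update_comp_equiv]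
      rfl
    have h2 := hs x (t ∘ ε.symm) (ε i)
    convert h2 using 2 with s
    rw [← h1 s]
  · intro x
    exact h0 x
  · intro t ht
    exact hc _ fun i => ht _

/-- **The core theorem.** -/
theorem core {ι κ : Type} [Fintype ι] [Finite κ] (X : ι → Type) (Y : κ → Type)
    [∀ i, TopologicalSpace (X i)] [∀ j, TopologicalSpace (Y j)]
    (hX : ∀ i, ∃ e : X i → HC, Continuous e ∧ Function.Injective e)
    (hXu : ∀ i, Uncountable (X i)) (S : Finset κ)
    (hYc : ∀ j, j ∉ S → Countable (Y j))
    (hY : ∀ j ∈ S, ∃ D : Set (Y j), D.Countable ∧ ∀ y : Y j, ∃ q : ℕ → Y j, (∀ k, q k ∈ D) ∧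
      Tendsto q atTop (𝓝 y))
    (hlt : S.card < Fintype.card ι) : ¬ ∃ φ : SCp X → SCp Y, IsEmbedding φ := by
  rintro ⟨φ, hφ⟩
  classical
  choose e he hi using hX
  obtain ⟨q, hq⟩ := exists_dense e he hi
  have hint : ∀ (F : Finset (∀ i, X i)) (r : (∀ i, X i) → ℝ),
      ∃ f : SCp X, ∀ z ∈ F, f.1 z = r z := by
    intro F r
    obtain ⟨c, hc⟩ := interp e hi F r
    exact ⟨inc e he c, hc⟩
  -- the countable sets in the factors of the target
  have h0 : ∀ j, ∃ D : Set (Y j), D.Countable ∧ (j ∈ S → ∀ y : Y j, ∃ q : ℕ → Y j,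
      (∀ k, q k ∈ D) ∧ Tendsto q atTop (𝓝 y)) ∧ (j ∉ S → ∀ y : Y j, y ∈ D) := by
    intro j
    by_cases hj : j ∈ S
    · obtain ⟨D, hD, h⟩ := hY j hj
      exact ⟨D, hD, fun _ => h, fun h' => absurd hj h'⟩
    · have := hYc j hj
      exact ⟨univ, countable_univ, fun h => absurd h hj, fun _ y => mem_univ y⟩
  choose D hDc hDS hDn using h0
  have hev : ∀ y : ∀ j, Y j, Continuous fun f : SCp X => (φ f).1 y := fun y =>
    (continuous_apply y).comp (continuous_subtype_val.comp hφ.continuous)
  have h1 : ∀ y : ∀ j, Y j, ∃ A : Set (∀ i, X i), A.Countable ∧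
      ∀ (W : Type) [TopologicalSpace W] (θ : W → SCp X),
        (∀ a ∈ A, Continuous fun x => (θ x).1 a) → Continuous fun x => (φ (θ x)).1 y := fun y =>
    factor q hq hint (hev y)
  choose A hA hAθ using h1
  let YD : Set (∀ j, Y j) := {y | ∀ j, y j ∈ D j}
  have hYD : YD.Countable := countable_pi fun j => hDc j
  let A' : Set (∀ i, X i) := ⋃ y ∈ YD, A y
  have hA' : A'.Countable := hYD.biUnion fun y _ => hA y
  -- the generic point
  have h2 : ∀ i, ∃ s : X i, ∀ a ∈ A', a i ≠ s := by
    intro i
    have h3 : ((fun a : ∀ i, X i => a i) '' A').Countable := hA'.image _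
    have h4 : ¬ (univ : Set (X i)).Countable := by
      intro h
      exact (hXu i).1 (countable_univ_iff.1 h)
    obtain ⟨s, _, hs⟩ := not_subset.1 fun h => h4 (h3.mono h)
    exact ⟨s, fun a ha h => hs ⟨a, ha, h⟩⟩
  choose x hx using h2
  -- the neighbourhoods of zero
  let O1 : Set (SCp X) := {f | |f.1 x| < 1 / 2}
  have hO1 : IsOpen O1 := isOpen_lt (continuous_abs.comp
    ((continuous_apply x).comp continuous_subtype_val)) continuous_const
  let z0 : SCp X := inc e he 0
  have hz0 : z0 ∈ O1 := by
    have : z0.1 x = 0 := rfl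
    simp only [O1, mem_ofPred_eq, this]
    norm_num
  obtain ⟨V, hV, hVO⟩ := hφ.isOpen_iff.1 hO1
  have hz0V : φ z0 ∈ V := by
    have : z0 ∈ φ ⁻¹' V := by rw [hVO]; exact hz0
    exact this
  obtain ⟨F', δ', hδ', hF'⟩ := nhd_basic hV hz0V
  let O2 : Set (SCp X) := {f | ∀ y ∈ F', |(φ f).1 y - (φ z0).1 y| < δ'}
  have hO2 : IsOpen O2 := by
    have h5 : O2 = ⋂ y ∈ F', {f : SCp X | |(φ f).1 y - (φ z0).1 y| < δ'} := by
      ext f'
      simp [O2]
    rw [h5]
    exact isOpen_biInter_finset fun y _ =>
      isOpen_lt (continuous_abs.comp ((hev y).sub continuous_const)) continuous_const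
  have hz02 : z0 ∈ O2 := fun y _ => by
    rw [sub_self, abs_zero]
    exact hδ'
  have hO21 : O2 ⊆ O1 := by
    intro f hf
    have : f ∈ φ ⁻¹' V := hF' (φ f) hf
    rwa [hVO] at this
  obtain ⟨F, δ, hδ, hF⟩ := nhd_basic hO2 hz02
  -- the cutoff function
  have hdis : Disjoint (em e '' ((F.erase x : Finset _) : Set (∀ i, X i))) {em e x} := by
    rw [disjoint_singleton_right]
    rintro ⟨z, hz, hzx⟩
    rw [em_injective e hi hzx] at hz
    simp at hz
  obtain ⟨κ', hκ0, hκ1, hκ⟩ := exists_continuous_zero_one_of_isClosed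
    (((F.erase x).finite_toSet.image (em e)).isClosed) isClosed_singleton hdis
  -- the family
  obtain ⟨B, hB, hBc⟩ := exists_sig_not_compl S.card
  obtain ⟨θ, hθs, hθ0, hθc⟩ := exists_theta' (ι := ι) (ind B) (L_mono hlt (L_ind hB))
  have h3 : ∀ i, ∃ h : X i → ℝ, Continuous h ∧ ∀ z, h z = 0 ↔ z = x i := fun i =>
    exists_zero (e i) (he i) (hi i) (x i)
  choose hh hhc hh0 using h3
  let sh : (∀ i, X i) → (ι → ℝ) := fun z i => hh i (z i)
  have hsh : ∀ z i t, sh (Function.update z i t) = Function.update (sh z) i (hh i t) := by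
    intro z i t
    funext j
    by_cases hj : j = i
    · subst hj
      simp [sh]
    · simp [sh, Function.update_of_ne hj]
  let Θ : (ℕ → ℕ) → SCp X := fun α => ⟨fun z => κ' (em e z) * θ α (sh z), by
    intro z i
    have h4 : Continuous fun t : X i => em e (Function.update z i t) :=
      (continuous_em e he).comp (continuous_const.update i continuous_id)
    have h5 : Continuous fun t : X i => θ α (sh (Function.update z i t)) := by
      simp only [hsh]
      exact (hθs α (sh z) i).comp (hhc i)
    exact (κ'.continuous.comp h4).mul h5⟩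
  have hΘx : ∀ α, (Θ α).1 x = ind B α := by
    intro α
    have h3 : sh x = 0 := by
      funext i
      exact (hh0 i (x i)).2 rfl
    have h4 : κ' (em e x) = 1 := hκ1 rfl
    change κ' (em e x) * θ α (sh x) = _
    rw [h3, h4, one_mul, hθ0]
  have hΘc : ∀ a ∈ A', Continuous fun α => (Θ α).1 a := by
    intro a ha
    refine continuous_const.mul (hθc _ fun i => ?_)
    exact fun h => hx i a ha ((hh0 i (a i)).1 h)
  -- the evaluations of the images
  have h3 : ∀ y : ∀ j, Y j, (∀ j, y j ∈ D j) → Continuous fun α => (φ (Θ α)).1 y := by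
    intro y hy
    exact hAθ y _ Θ fun a ha => hΘc a (mem_iUnion₂.2 ⟨y, hy, ha⟩)
  have h4 : ∀ y : ∀ j, Y j, L S.card fun α => (φ (Θ α)).1 y := fun y =>
    L_eval S (fun j hj => hDS j hj) (fun α => φ (Θ α)) h3 y fun j hj => hDn j hj (y j)
  have h5 : Sig S.card {α | ∀ y ∈ F', α ∈ {α | |(φ (Θ α)).1 y - (φ z0).1 y| < δ'}} := by
    refine sig_biInter F' fun y _ => ?_
    have h6 : {α | |(φ (Θ α)).1 y - (φ z0).1 y| < δ'} =
        {α | (φ z0).1 y - δ' < (φ (Θ α)).1 y} ∩ {α | (φ (Θ α)).1 y < (φ z0).1 y + δ'} := by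
      ext α
      simp only [mem_ofPred_eq, mem_inter_iff, abs_lt]
      constructor
      · rintro ⟨h, h'⟩
        constructor <;> linarith
      · rintro ⟨h, h'⟩
        constructor <;> linarith
    rw [h6]
    exact sig_inter (sig_gt (h4 y) _) (sig_lt (h4 y) _)
  refine hBc ?_
  convert h5 using 1
  ext α
  constructor
  · intro hα y hy
    have h7 : Θ α ∈ O2 := by
      refine hF _ fun z hz => ?_
      have h8 : (Θ α).1 z = 0 := by
        by_cases hzx : z = x
        · rw [hzx, hΘx, ind_of_notMem hα]
          rfl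
        · have h9 : κ' (em e z) = 0 :=
            hκ0 ⟨z, Finset.mem_coe.2 (Finset.mem_erase.2 ⟨hzx, hz⟩), rfl⟩
          change κ' (em e z) * θ α (sh z) = 0
          rw [h9, zero_mul]
      have h9 : z0.1 z = 0 := rfl
      rw [h8, h9, sub_zero, abs_zero]
      exact hδ
    exact h7 y hy
  · intro hα hαS
    have h7 : Θ α ∈ O1 := hO21 fun y hy => hα y hy
    have h8 : |(Θ α).1 x| < 1 / 2 := h7
    rw [hΘx, ind_of_mem hαS] at h8
    norm_num at h8

end Pool.Agent.KS6_9.SC.Core
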